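import Pool.Agent.Helper99.ML.C
import Pool.Agent.Helper43.ML.Dim

set_option autoImplicit false

/-!
# Weighted powers: one node of the Cantor scheme
-/

namespace Pool.Agent.Helper99.WD

open Filter Topology
open Pool.Agent.Helper99.ML (CHS CH)

/-- the solution of `W r ^ m = t` -/
noncomputable def rt (m : ℕ) (W t : ℝ) : ℝ := (t / W) ^ ((1 : ℝ) / m)

theorem rt_pow {m : ℕ} (hm : 0 < m) {W t : ℝ} (hW : 0 < W) (ht : 0 ≤ t) :
    W * rt m W t ^ m = t := by
  have hm' : (m : ℝ) ≠ 0 := by positivity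
  unfold rt
  rw [← Real.rpow_natCast, ← Real.rpow_mul (by positivity), one_div, inv_mul_cancel₀ hm',
    Real.rpow_one]
  field_simp

theorem rt_nonneg {m : ℕ} {W t : ℝ} (hW : 0 < W) (ht : 0 ≤ t) : 0 ≤ rt m W t := by
  unfold rt; positivity

theorem lt_of_pow {m : ℕ} {W a b : ℝ} (hW : 0 < W) (ha : 0 ≤ a)
    (h : W * b ^ m < W * a ^ m) : b < a := by
  by_contra hcon
  push Not at hcon
  have := mul_le_mul_of_nonneg_left (pow_le_pow_left₀ ha hcon m) hW.le
  linarith

theorem slope {m : ℕ} (hm : 0 < m) {W α α' b : ℝ} (hW : 0 < W) (h1 : 0 < α') (hb : α' ≤ b)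
    (ht : W * α ^ m ≤ W * α' ^ m) (h0 : 0 ≤ α) :
    (W * α' ^ m - W * α ^ m) * (b / (W * b ^ m * m)) ≤ α' - α := by
  have hm0 : (0 : ℝ) < m := by exact_mod_cast hm
  have hb0 : 0 < b := h1.trans_le hb
  have hber := one_add_mul_le_pow (show (-2 : ℝ) ≤ α / α' - 1 by
    have : 0 ≤ α / α' := by positivity
    linarith) m
  have e1 : (1 + (α / α' - 1)) ^ m = (W * α ^ m) / (W * α' ^ m) := by
    rw [mul_div_mul_left _ _ hW.ne', ← div_pow]
    congr 1
    ring
  rw [e1] at hber
  set t := W * α ^ m with htd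
  set t' := W * α' ^ m with htd'
  have ht' : 0 < t' := by positivity
  have h2 : (t' - t) * (α' / (t' * m)) ≤ α' - α := by
    have h3 : t / t' = 1 - (t' - t) / t' := by field_simp; ring
    have h4 : (t' - t) / t' ≤ m * (1 - α / α') := by
      rw [h3] at hber; linarith
    have h5 : (t' - t) * (α' / (t' * m)) = (t' - t) / t' * (α' / m) := by field_simp
    have h6 : α' - α = m * (1 - α / α') * (α' / m) := by field_simp
    rw [h5, h6]
    exact mul_le_mul_of_nonneg_right h4 (by positivity)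
  refine le_trans (mul_le_mul_of_nonneg_left ?_ (by linarith)) h2
  rw [div_le_div_iff₀ (by positivity) (by positivity)]
  obtain ⟨n, rfl⟩ : ∃ n, m = n + 1 := ⟨m - 1, by omega⟩
  have h7 : α' ^ n ≤ b ^ n := pow_le_pow_left₀ h1.le hb n
  rw [htd', pow_succ, pow_succ]
  have h8 : 0 ≤ b * α' * W * ((n + 1 : ℕ) : ℝ) := by positivity
  nlinarith [mul_le_mul_of_nonneg_right h7 h8]

set_option maxHeartbeats 4000000 in
theorem node {θ c x₁ : ℝ} (hθ0 : 0 < θ) (hc : 0 < c)
    (hCH : CHS θ c x₁) (hθ1 : θ < 1) (k : ℤ) {L u v : ℝ} (hL : 1 ≤ L) (hu : 1 < u) (huv : u < v)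
    {s σ : ℝ} (hs : 0 < s) (hsσ : s < σ) (hσ : σ < 1) :
    ∃ K δ : ℝ, 0 < δ ∧ ∀ᶠ m : ℕ in atTop, ∀ m' : ℕ, K * m ≤ m' → Real.log m' ≤ δ * m →
      ∀ W W' : ℝ, 1 ≤ W → W ≤ L ^ m → 1 ≤ W' → W' ≤ L ^ m' →
      ∀ (a b B w : ℝ) (P : ℤ), u < a → a < b → b < v →
      W * a ^ m = P → W * b ^ m = P + 1 → 0 < w → 0 < B → w ≤ B * (P : ℝ) ^ (-σ) →
      ∃ (M : ℕ) (l r : ℕ → ℝ) (g : ℝ), 2 ≤ M ∧ 0 < g ∧
        (∀ d < M, a < l d ∧ l d < r d ∧ r d < b ∧ ∃ P' : ℤ, 1 ≤ P' ∧ W' * l d ^ m' = P' ∧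
          W' * r d ^ m' = P' + 1 ∧ (P' + k).toNat.Prime ∧ w / M ≤ B * (P' : ℝ) ^ (-σ)) ∧
        (∀ d d', d < d' → d' < M → ((d' : ℝ) - d) * g ≤ l d' - r d) ∧
        2 * w ≤ (2 * B) * (M * g) ^ s := by
  have hσ0 : 0 < σ := hs.trans hsσ
  -- conditions on `X`
  have q1 : ∀ᶠ X : ℝ in atTop, 2 * Real.log X ≤ c * X ^ ((1 : ℝ) / 2) := by
    have h2 := (isLittleO_log_rpow_atTop (show (0 : ℝ) < 1 / 2 by norm_num)).def
      (show (0 : ℝ) < c / 2 by positivity)
    filter_upwards [h2, eventually_ge_atTop (1 : ℝ)] with X hX hX1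
    rw [Real.norm_of_nonneg (Real.log_nonneg hX1), Real.norm_of_nonneg (by positivity)] at hX
    linarith
  have q2 : ∀ᶠ X : ℝ in atTop, Real.log X ≤ c * X ^ ((1 - σ) / 2) := by
    have h2 := (isLittleO_log_rpow_atTop (show (0 : ℝ) < (1 - σ) / 2 by linarith)).def hc
    filter_upwards [h2, eventually_ge_atTop (1 : ℝ)] with X hX hX1
    rwa [Real.norm_of_nonneg (Real.log_nonneg hX1), Real.norm_of_nonneg (by positivity)] at hX
  have q3 : ∀ᶠ X : ℝ in atTop, 2 * x₁ ≤ X := eventually_ge_atTop _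
  have q4 : ∀ᶠ X : ℝ in atTop, 4 * |(k : ℝ)| ≤ X := eventually_ge_atTop _
  have q5 : ∀ᶠ X : ℝ in atTop, 4 ≤ X := eventually_ge_atTop _
  obtain ⟨X₀, hX₀⟩ := eventually_atTop.1 ((q1.and q2).and (q3.and (q4.and q5)))
  -- constants
  have hu0 : 0 < u := by linarith
  have hv0 : 0 < v := hu0.trans huv
  have hL0 : 0 < L := by linarith
  have hLv1 : u < L * v := by nlinarith
  have hlu : 0 < Real.log u := Real.log_pos hu
  obtain ⟨D, hD⟩ : ∃ D, D = Real.log (L * v) := ⟨_, rfl⟩
  have hD0 : 0 < D := by rw [hD]; exact Real.log_pos (by linarith)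
  obtain ⟨κ, hκ⟩ : ∃ κ, κ = min θ ((1 - σ) / 2) := ⟨_, rfl⟩
  have hκ0 : 0 < κ := by rw [hκ]; exact lt_min hθ0 (by linarith)
  obtain ⟨ε, hε⟩ : ∃ ε, ε = σ / s - 1 := ⟨_, rfl⟩
  have hε0 : 0 < ε := by
    rw [hε, sub_pos, lt_div_iff₀ hs]; linarith
  have hεs : (1 + ε) * s = σ := by
    rw [hε]; field_simp; ring
  refine ⟨D / (κ * Real.log u) + 1, ε * Real.log u / 4, by positivity, ?_⟩
  -- conditions on `m`
  have c2 : ∀ᶠ m : ℕ in atTop, X₀ ≤ u ^ m :=
    (tendsto_pow_atTop_atTop_of_one_lt hu).eventually_ge_atTop X₀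
  have c4 : ∀ᶠ m : ℕ in atTop, 1 ≤ u ^ m :=
    (tendsto_pow_atTop_atTop_of_one_lt hu).eventually_ge_atTop 1
  have c5 : ∀ᶠ m : ℕ in atTop, 2 * D / c ≤ Real.exp (ε * Real.log u / 2 * m) := by
    have : Tendsto (fun m : ℕ => Real.exp (ε * Real.log u / 2 * (m : ℝ))) atTop atTop :=
      Real.tendsto_exp_atTop.comp
        (tendsto_natCast_atTop_atTop.const_mul_atTop (by positivity))
    exact this.eventually_ge_atTop _
  filter_upwards [c2, c4, c5, eventually_ge_atTop 2] with m d2 d4 d5 d6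
  intro m' d3 hlm W W' hW1 hWL hW1' hWL' a b B w P hua hab hbv h1 h2 hw hB hwB
  -- the numbers
  have hm2 : (2 : ℝ) ≤ m := by exact_mod_cast d6
  have hm0 : (0 : ℝ) < m := by linarith
  have hmle : (m : ℝ) ≤ m' := by
    refine le_trans ?_ d3
    have : 0 ≤ D / (κ * Real.log u) * m := by positivity
    linarith
  have hmle' : m ≤ m' := by exact_mod_cast hmle
  have hm'0 : (0 : ℝ) < m' := by linarith
  have hm'pos : 0 < m' := by exact_mod_cast hm'0
  have ha : 0 < a := hu0.trans hua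
  have hb : 0 < b := ha.trans hab
  have hb1 : 1 ≤ b := by linarith
  have hW0 : 0 < W := by linarith
  have hW0' : 0 < W' := by linarith
  have hPu : u ^ m ≤ (P : ℝ) := by
    rw [← h1]
    calc u ^ m ≤ a ^ m := pow_le_pow_left₀ hu0.le hua.le _
      _ = 1 * a ^ m := (one_mul _).symm
      _ ≤ W * a ^ m := mul_le_mul_of_nonneg_right hW1 (by positivity)
  have hP1 : (1 : ℝ) ≤ P := d4.trans hPu
  have hP0 : (0 : ℝ) < P := by linarith
  set R : ℝ := P + 1 with hR
  have hR0 : 0 < R := by linarith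
  have hR1 : 1 ≤ R := by linarith
  set X := W' * b ^ m' with hX
  set Xa := W' * a ^ m' with hXa
  have hX0 : 0 < X := by positivity
  have hXa0 : 0 < Xa := by positivity
  have huX : u ^ m' ≤ X := by
    calc u ^ m' ≤ b ^ m' := pow_le_pow_left₀ hu0.le (hua.trans hab).le _
      _ = 1 * b ^ m' := (one_mul _).symm
      _ ≤ X := mul_le_mul_of_nonneg_right hW1' (by positivity)
  have hXX : X₀ ≤ X := d2.trans ((pow_le_pow_right₀ hu.le hmle').trans huX)
  obtain ⟨⟨r1, r2⟩, r3, r4, r5⟩ := hX₀ X hXX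
  have hX1 : 1 ≤ X := by linarith
  have hRexp : R ≤ X ^ κ := by
    calc R = W * b ^ m := h2.symm
      _ ≤ L ^ m * v ^ m := mul_le_mul hWL (pow_le_pow_left₀ hb.le hbv.le _) (by positivity)
          (by positivity)
      _ = (L * v) ^ (m : ℝ) := by rw [Real.rpow_natCast, mul_pow]
      _ = Real.exp (D * m) := by rw [Real.rpow_def_of_pos (by positivity), hD]
      _ ≤ Real.exp (Real.log u * (m' * κ)) := by
          apply Real.exp_le_exp.2
          have h3 : D / (κ * Real.log u) * m ≤ m' := by linarith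
          have h4 : D / (κ * Real.log u) * m = D * m / (κ * Real.log u) := by ring
          rw [h4, div_le_iff₀ (by positivity)] at h3
          linarith
      _ = (u ^ m') ^ κ := by
          rw [← Real.rpow_def_of_pos hu0, Real.rpow_mul hu0.le, Real.rpow_natCast]
      _ ≤ X ^ κ := Real.rpow_le_rpow (by positivity) huX hκ0.le
  have hRκ : ∀ κ' : ℝ, κ ≤ κ' → R ≤ X ^ κ' := fun κ' h =>
    hRexp.trans (Real.rpow_le_rpow_of_exponent_le hX1 h)
  have hlogX : 0 < Real.log X := Real.log_pos (by linarith)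
  -- the length
  have hab1 : a / b ≤ 1 := by
    rw [div_le_one hb]; exact hab.le
  have hXaX : Xa = (a / b) ^ m' * X := by
    rw [hXa, hX, div_pow]
    field_simp
  have hXaX' : Xa ≤ X - X / R := by
    have h3 : (a / b) ^ m' ≤ (P : ℝ) / R := by
      calc (a / b) ^ m' ≤ (a / b) ^ m := pow_le_pow_of_le_one (by positivity) hab1 hmle'
        _ = (P : ℝ) / R := by
          rw [← h1, ← h2, mul_div_mul_left _ _ hW0.ne', ← div_pow]
    have h4 : (P / R : ℝ) * X = X - X / R := by
      rw [hR]; field_simp; ring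
    rw [hXaX, ← h4]
    exact mul_le_mul_of_nonneg_right h3 hX0.le
  obtain ⟨x, hx⟩ : ∃ x, x = max Xa (X / 2) := ⟨_, rfl⟩
  have hx2 : X / 2 ≤ x := by rw [hx]; exact le_max_right _ _
  have hxa : Xa ≤ x := by rw [hx]; exact le_max_left _ _
  have hXR : X / R ≤ X / 2 := div_le_div_of_nonneg_left hX0.le (by norm_num) (by linarith)
  have hXR0 : 0 < X / R := by positivity
  have hxX : x ≤ X - X / R := by
    rw [hx]
    exact max_le hXaX' (by linarith)
  have hxX' : x ≤ X := by linarith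
  have hx₁ : x₁ ≤ x := by linarith
  have hx0 : 0 < x := by linarith
  have hlen : x ^ (1 - θ) ≤ X - x := by
    calc x ^ (1 - θ) ≤ X ^ (1 - θ) := Real.rpow_le_rpow hx0.le hxX' (by linarith)
      _ = X / X ^ θ := by rw [Real.rpow_sub hX0, Real.rpow_one]
      _ ≤ X / R := div_le_div_of_nonneg_left hX0.le hR0 (hRκ θ (by rw [hκ]; exact min_le_left _ _))
      _ ≤ X - x := by linarith
  have hlogx : 0 < Real.log x := Real.log_pos (by linarith)
  obtain ⟨M, p, g1, g2, g3⟩ := hCH x X hx₁ hlen (by linarith) k (by linarith)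
  have hM : c * X / (R * Real.log X) ≤ M := by
    refine le_trans ?_ g1
    have h3 : c * X / (R * Real.log X) = c * (X / R) / Real.log X := by field_simp
    rw [h3]
    have h5 : c * (X / R) ≤ c * (X - x) := mul_le_mul_of_nonneg_left (by linarith) hc.le
    have h6 : Real.log x ≤ Real.log X := Real.log_le_log hx0 hxX'
    exact div_le_div₀ (by nlinarith) h5 hlogx h6
  have hM2 : (2 : ℝ) ≤ M := by
    refine le_trans ?_ hM
    rw [le_div_iff₀ (by positivity)]
    have h3 : R ≤ X ^ ((1 : ℝ) / 2) := hRκ _ (by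
      rw [hκ]
      exact (min_le_right _ _).trans (by linarith))
    calc 2 * (R * Real.log X) = R * (2 * Real.log X) := by ring
      _ ≤ X ^ ((1 : ℝ) / 2) * (c * X ^ ((1 : ℝ) / 2)) :=
          mul_le_mul h3 r1 (by positivity) (by positivity)
      _ = c * (X ^ ((1 : ℝ) / 2) * X ^ ((1 : ℝ) / 2)) := by ring
      _ = c * X := by
          rw [← Real.rpow_add hX0]
          norm_num
  have hM2' : 2 ≤ M := by exact_mod_cast hM2
  have hM0 : (0 : ℝ) < M := by linarith
  have hpp : ∀ d < M, (1 : ℝ) < p d := fun d hd => by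
    have := (g2 d hd).1
    linarith
  refine ⟨M, fun d => rt m' W' (p d), fun d => rt m' W' (p d + 1), b / (X * m'), hM2', by positivity,
    ?_, ?_, ?_⟩
  · intro d hd
    obtain ⟨i1, i2, i3⟩ := g2 d hd
    have hp1 := hpp d hd
    have hp0 : (0 : ℝ) ≤ p d := by linarith
    have w1 := rt_pow hm'pos hW0' hp0
    have w2 := rt_pow hm'pos hW0' (t := (p d : ℝ) + 1) (by linarith)
    have n1 := rt_nonneg (m := m') hW0' hp0
    have n2 := rt_nonneg (m := m') hW0' (t := (p d : ℝ) + 1) (by linarith)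
    refine ⟨?_, ?_, ?_, p d, ?_, w1, w2, i3, ?_⟩
    · exact lt_of_pow (m := m') hW0' n1 (by rw [w1]; exact hxa.trans_lt i1)
    · exact lt_of_pow (m := m') hW0' n2 (by rw [w1, w2]; linarith)
    · exact lt_of_pow (m := m') hW0' hb.le (by rw [w2]; exact i2)
    · have : (1 : ℤ) < p d := by exact_mod_cast hp1
      omega
    · -- the weight
      have hpX : (p d : ℝ) ≤ X := by linarith
      have h3 : X ^ (-σ) ≤ (p d : ℝ) ^ (-σ) :=
        Real.rpow_le_rpow_of_nonpos (by linarith) hpX (by linarith)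
      refine le_trans ?_ (mul_le_mul_of_nonneg_left h3 hB.le)
      rw [div_le_iff₀ hM0]
      have h4 : w ≤ B := by
        refine hwB.trans ?_
        have : (P : ℝ) ^ (-σ) ≤ 1 := Real.rpow_le_one_of_one_le_of_nonpos hP1 (by linarith)
        calc B * (P : ℝ) ^ (-σ) ≤ B * 1 := mul_le_mul_of_nonneg_left this hB.le
          _ = B := mul_one _
      refine h4.trans ?_
      have h5 : 1 ≤ X ^ (-σ) * M := by
        have h6 : 1 ≤ X ^ (-σ) * (c * X / (R * Real.log X)) := by
          have h7 : X ^ (-σ) * (c * X / (R * Real.log X)) =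
              c * (X ^ (-σ) * X) / (R * Real.log X) := by ring
          rw [h7, le_div_iff₀ (by positivity), one_mul]
          have h8 : R ≤ X ^ ((1 - σ) / 2) := hRκ _ (by rw [hκ]; exact min_le_right _ _)
          calc R * Real.log X ≤ X ^ ((1 - σ) / 2) * (c * X ^ ((1 - σ) / 2)) :=
                mul_le_mul h8 r2 (by positivity) (by positivity)
            _ = c * (X ^ ((1 - σ) / 2) * X ^ ((1 - σ) / 2)) := by ring
            _ = c * (X ^ (-σ) * X) := by
                have e1 : X ^ (-σ) * X = X ^ (-σ) * X ^ (1 : ℝ) := by rw [Real.rpow_one]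
                rw [e1, ← Real.rpow_add hX0, ← Real.rpow_add hX0]
                congr 2
                ring
        exact h6.trans (mul_le_mul_of_nonneg_left hM (by positivity))
      calc B = B * 1 := (mul_one _).symm
        _ ≤ B * (X ^ (-σ) * M) := mul_le_mul_of_nonneg_left h5 hB.le
        _ = B * X ^ (-σ) * M := by ring
  · intro d d' hdd' hd'
    have hd : d < M := hdd'.trans hd'
    have hp1 := hpp d hd
    have hp1' := hpp d' hd'
    have hp0 : (0 : ℝ) ≤ p d := by linarith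
    have w1 := rt_pow hm'pos hW0' (t := (p d' : ℝ)) (by linarith)
    have w2 := rt_pow hm'pos hW0' (t := (p d : ℝ) + 1) (by linarith)
    have n1 := rt_nonneg (m := m') hW0' (t := (p d' : ℝ)) (by linarith)
    have n2 := rt_nonneg (m := m') hW0' (t := (p d : ℝ) + 1) (by linarith)
    have h3 : p d + 2 * ((d' : ℤ) - d) ≤ p d' := g3 d d' hdd' hd'
    have h3' : (p d : ℝ) + 2 * ((d' : ℝ) - d) ≤ p d' := by exact_mod_cast h3
    have h4 : (1 : ℝ) ≤ (d' : ℝ) - d := by
      have : (d : ℝ) + 1 ≤ d' := by exact_mod_cast hdd'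
      linarith
    have n1' : 0 < rt m' W' (p d') :=
      ha.trans (lt_of_pow (m := m') hW0' n1 (by rw [w1]; exact hxa.trans_lt (g2 d' hd').1))
    have hb' : rt m' W' (p d') ≤ b :=
      (lt_of_pow (m := m') hW0' hb.le (by rw [w1]; linarith [(g2 d' hd').2.1])).le
    have hsl := slope hm'pos hW0' (α := rt m' W' ((p d : ℝ) + 1)) n1' hb'
      (by rw [w1, w2]; linarith) n2
    rw [w1, w2] at hsl
    refine le_trans (mul_le_mul_of_nonneg_right ?_ (by positivity)) hsl
    linarith
  · -- the key inequality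
    have hlog : Real.log X ≤ m' * D := by
      have h3 : X ≤ (L * v) ^ m' := by
        rw [mul_pow]
        exact mul_le_mul hWL' (pow_le_pow_left₀ hb.le hbv.le _) (by positivity) (by positivity)
      calc Real.log X ≤ Real.log ((L * v) ^ m') := Real.log_le_log hX0 h3
        _ = m' * D := by rw [Real.log_pow, hD]
    have hm'e : (m' : ℝ) ^ 2 ≤ Real.exp (ε * Real.log u / 2 * m) := by
      have h3 : (m' : ℝ) ≤ Real.exp (ε * Real.log u / 4 * m) := by
        rw [← Real.exp_log hm'0]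
        exact Real.exp_le_exp.2 hlm
      calc (m' : ℝ) ^ 2 ≤ Real.exp (ε * Real.log u / 4 * m) ^ 2 :=
            pow_le_pow_left₀ hm'0.le h3 2
        _ = _ := by
            rw [← Real.exp_nat_mul]
            congr 1
            push_cast
            ring
    have hPε : Real.exp (ε * Real.log u / 2 * m) * Real.exp (ε * Real.log u / 2 * m) ≤
        (P : ℝ) ^ ε := by
      calc _ = (u ^ m) ^ ε := by
            rw [← Real.exp_add, ← Real.rpow_natCast, ← Real.rpow_mul hu0.le,
              Real.rpow_def_of_pos hu0]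
            congr 1
            ring
        _ ≤ (P : ℝ) ^ ε := Real.rpow_le_rpow (by positivity) hPu hε0.le
    have h3 : (P : ℝ) ^ (-(1 + ε)) ≤ M * (b / (X * m')) := by
      have h5 : c / (R * ((m' : ℝ) ^ 2 * D)) ≤ M * (b / (X * m')) := by
        calc c / (R * ((m' : ℝ) ^ 2 * D)) = c * X / (R * (m' * D)) * (1 / (X * m')) := by
              field_simp
          _ ≤ c * X / (R * Real.log X) * (b / (X * m')) := by
              refine mul_le_mul ?_ ?_ (by positivity) (by positivity)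
              · exact div_le_div_of_nonneg_left (by positivity) (by positivity)
                  (mul_le_mul_of_nonneg_left hlog hR0.le)
              · exact div_le_div_of_nonneg_right hb1 (by positivity)
          _ ≤ _ := mul_le_mul_of_nonneg_right hM (by positivity)
      refine le_trans ?_ h5
      rw [le_div_iff₀ (by positivity), Real.rpow_neg hP0.le, inv_mul_le_iff₀ (by positivity),
        Real.rpow_add hP0, Real.rpow_one]
      have h6 : 2 * ((m' : ℝ) ^ 2 * D) ≤ c * (P : ℝ) ^ ε := by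
        rw [div_le_iff₀ hc] at d5
        calc 2 * ((m' : ℝ) ^ 2 * D) = (2 * D) * (m' : ℝ) ^ 2 := by ring
          _ ≤ (Real.exp (ε * Real.log u / 2 * m) * c) * Real.exp (ε * Real.log u / 2 * m) :=
              mul_le_mul d5 hm'e (by positivity) (by positivity)
          _ = c * (Real.exp (ε * Real.log u / 2 * m) * Real.exp (ε * Real.log u / 2 * m)) := by
              ring
          _ ≤ _ := mul_le_mul_of_nonneg_left hPε hc.le
      calc R * ((m' : ℝ) ^ 2 * D) ≤ (2 * P) * ((m' : ℝ) ^ 2 * D) :=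
            mul_le_mul_of_nonneg_right (by linarith) (by positivity)
        _ = P * (2 * ((m' : ℝ) ^ 2 * D)) := by ring
        _ ≤ P * (c * (P : ℝ) ^ ε) := mul_le_mul_of_nonneg_left h6 hP0.le
        _ = _ := by ring
    have h4 : (P : ℝ) ^ (-σ) ≤ (M * (b / (X * m'))) ^ s := by
      calc (P : ℝ) ^ (-σ) = ((P : ℝ) ^ (-(1 + ε))) ^ s := by
            rw [← Real.rpow_mul hP0.le, ← hεs]
            congr 1
            ring
        _ ≤ _ := Real.rpow_le_rpow (by positivity) h3 hs.le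
    calc 2 * w ≤ 2 * (B * (P : ℝ) ^ (-σ)) := by linarith
      _ = 2 * B * (P : ℝ) ^ (-σ) := by ring
      _ ≤ _ := mul_le_mul_of_nonneg_left h4 (by positivity)

end Pool.Agent.Helper99.WD
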