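import Pool.Agent.Helper99.WD.A

set_option autoImplicit false

/-!
# Weighted powers: dimension one
-/

namespace Pool.Agent.Helper99.WD

open Filter Topology
open Pool.Agent.Helper99.ML (CHS CH)

/-- the parameters -/
def PW (n : ℕ → ℕ) (W : ℕ → ℝ) (k : ℤ) (u v : ℝ) : Set ℝ := {α : ℝ | α ∈ Set.Ioo u v ∧
  ∀ᶠ j in atTop, (⌊W j * α ^ n j⌋ + k).toNat.Prime}

theorem dim_ge (n : ℕ → ℕ) (hn : StrictMono n)
    (hrat : Tendsto (fun j => (n (j + 1) : ℝ) / n j) atTop atTop)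
    (hlog : Tendsto (fun j => Real.log (n (j + 1)) / n j) atTop (𝓝 0)) (W : ℕ → ℝ) {L : ℝ}
    (hL1 : 1 ≤ L) (hW : ∀ᶠ j in atTop, 1 ≤ W j ∧ W j ≤ L ^ n j) (k : ℤ)
    {u v : ℝ} (hu : 1 < u) (huv : u < v) {s : ℝ} (hs : 0 < s) (hs1 : s < 1) :
    ENNReal.ofReal s ≤ dimH (PW n W k u v) := by
  obtain ⟨θ, c, x₁, hθ0, hθ1, hc, hx1, hCH⟩ := CH
  have hu0 : 0 < u := by linarith
  obtain ⟨σ, hσd⟩ : ∃ σ, σ = (s + 1) / 2 := ⟨_, rfl⟩
  have hsσ : s < σ := by rw [hσd]; linarith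
  have hσ : σ < 1 := by rw [hσd]; linarith
  obtain ⟨K, δ, hδ, hnode⟩ := node hθ0 hc hCH hθ1 k hL1 hu huv hs hsσ hσ
  have ht : Tendsto n atTop atTop := hn.tendsto_atTop
  have c1 : ∀ᶠ m : ℕ in atTop, x₁ ≤ u ^ m :=
    (tendsto_pow_atTop_atTop_of_one_lt hu).eventually_ge_atTop _
  have c2 : ∀ᶠ m : ℕ in atTop, 2 * |(k : ℝ)| ≤ u ^ m :=
    (tendsto_pow_atTop_atTop_of_one_lt hu).eventually_ge_atTop _
  have c3 : ∀ᶠ m : ℕ in atTop, 2 ≤ (v / u) ^ m :=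
    (tendsto_pow_atTop_atTop_of_one_lt (by rw [lt_div_iff₀ hu0]; linarith :
      (1 : ℝ) < v / u)).eventually_ge_atTop 2
  have hlog' := hlog.eventually (gt_mem_nhds hδ)
  obtain ⟨J, hJ⟩ := eventually_atTop.1 ((ht.eventually
    ((((c1.and c2).and c3).and (eventually_ge_atTop 1)).and hnode)).and
    (((hrat.eventually_ge_atTop K).and hlog').and hW))
  have hn1 : ∀ j, J ≤ j → 1 ≤ n j := fun j hj => (hJ j hj).1.1.2
  -- the first interval
  obtain ⟨a₀, b₀, P₀, g1, g2, g3, hP₀, p1, p2, p3⟩ :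
      ∃ (a' b' : ℝ) (P : ℤ), u < a' ∧ a' < b' ∧ b' < v ∧ 1 ≤ P ∧ W J * a' ^ n J = P ∧
        W J * b' ^ n J = P + 1 ∧ (P + k).toNat.Prime := by
    obtain ⟨⟨⟨⟨⟨h1, h2⟩, h3⟩, h5⟩, -⟩, -, hW1, -⟩ := hJ J le_rfl
    have hW0 : 0 < W J := by linarith
    obtain ⟨x, hx⟩ : ∃ x, x = W J * u ^ n J := ⟨_, rfl⟩
    have hux : u ^ n J ≤ x := by
      rw [hx]
      calc u ^ n J = 1 * u ^ n J := (one_mul _).symm
        _ ≤ _ := mul_le_mul_of_nonneg_right hW1 (by positivity)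
    have hx1' : x₁ ≤ x := h1.trans hux
    have hx0 : 0 < x := by linarith
    have hxv : 2 * x ≤ W J * v ^ n J := by
      have e1 : W J * v ^ n J = (v / u) ^ n J * x := by
        rw [hx, div_pow]
        field_simp
      rw [e1]
      exact mul_le_mul_of_nonneg_right h3 hx0.le
    have hwid : x ^ (1 - θ) ≤ 2 * x - x := by
      calc x ^ (1 - θ) ≤ x ^ (1 : ℝ) :=
            Real.rpow_le_rpow_of_exponent_le (by linarith) (by linarith)
        _ = x := Real.rpow_one _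
        _ = 2 * x - x := by ring
    obtain ⟨M, p, q1, q2, -⟩ := hCH x (2 * x) hx1' hwid le_rfl k (by linarith)
    have hlx : 0 < Real.log x := Real.log_pos (by linarith)
    have hM0 : (0 : ℝ) < M := by
      refine lt_of_lt_of_le ?_ q1
      have : 0 < 2 * x - x := by linarith
      positivity
    have hM : 0 < M := by exact_mod_cast hM0
    obtain ⟨i1, i2, i3⟩ := q2 0 hM
    have hp1 : (1 : ℝ) < p 0 := by linarith
    have hp0 : (0 : ℝ) ≤ p 0 := by linarith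
    have w1 := rt_pow h5 hW0 hp0
    have w2 := rt_pow h5 hW0 (t := (p 0 : ℝ) + 1) (by linarith)
    have n1 := rt_nonneg (m := n J) hW0 hp0
    have n2 := rt_nonneg (m := n J) hW0 (t := (p 0 : ℝ) + 1) (by linarith)
    refine ⟨rt (n J) (W J) (p 0), rt (n J) (W J) (p 0 + 1), p 0, ?_, ?_, ?_, ?_, w1, w2, i3⟩
    · exact lt_of_pow hW0 n1 (by rw [w1, ← hx]; exact i1)
    · exact lt_of_pow hW0 n2 (by rw [w1, w2]; linarith)
    · exact lt_of_pow (m := n J) hW0 (by linarith) (by rw [w2]; linarith)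
    · have : (1 : ℤ) < p 0 := by exact_mod_cast hp1
      omega
  have hP₀' : (1 : ℝ) ≤ P₀ := by exact_mod_cast hP₀
  have hP₀0 : (0 : ℝ) < P₀ := by linarith
  obtain ⟨B, hBd⟩ : ∃ B : ℝ, B = (P₀ : ℝ) ^ σ := ⟨_, rfl⟩
  have hB : 0 < B := by rw [hBd]; positivity
  let Q : ℕ → ℝ → ℝ → ℝ → Prop := fun i a b w => ∃ P : ℤ, 1 ≤ P ∧
    W (J + i) * a ^ n (J + i) = P ∧ W (J + i) * b ^ n (J + i) = P + 1 ∧
    (P + k).toNat.Prime ∧ u < a ∧ a < b ∧ b < v ∧ w ≤ B * (P : ℝ) ^ (-σ)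
  refine Pool.Agent.Helper43.ML.t_DIM s (2 * B) hs hs1 (by positivity) Q a₀ b₀ 1 one_pos g2
    ⟨P₀, hP₀, p1, p2, p3, g1, g2, g3, ?_⟩ ?_ _ ?_
  · rw [hBd, ← Real.rpow_add hP₀0]
    simp
  · rintro i a b w ⟨P, hP1, h1, h2, h3, h4, h5, h6, h7⟩ hw
    obtain ⟨⟨-, hN⟩, ⟨t1, t3⟩, t5, t6⟩ := hJ (J + i) (by omega)
    obtain ⟨-, -, t7, t8⟩ := hJ (J + (i + 1)) (by omega)
    have hn0 : (0 : ℝ) < n (J + i) := by exact_mod_cast hn1 (J + i) (by omega)
    rw [le_div_iff₀ hn0] at t1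
    rw [div_lt_iff₀ hn0] at t3
    obtain ⟨M, l, r, g, hM, hg, hch, hgap, hkey⟩ := hN (n (J + (i + 1))) t1 t3.le
      (W (J + i)) (W (J + (i + 1))) t5 t6 t7 t8 a b B w P h4 h5 h6 h1 h2 hw hB h7
    refine ⟨M, l, r, g, hM, hg, fun d hd => ?_, hgap, hkey⟩
    obtain ⟨i1, i2, i3, P', i4, i5, i6, i7, i8⟩ := hch d hd
    exact ⟨i1, i2, i3, P', i4, i5, i6, i7, h4.trans i1, i2, i3.trans h6, i8⟩
  · intro I hI hnest x hx
    have hux : u < x := by
      obtain ⟨P, -, -, -, -, h4, -, -, -⟩ := hI 0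
      exact h4.trans_le (hx 0).1
    have hxv : x < v := by
      obtain ⟨P, -, -, -, -, -, -, h6, -⟩ := hI 0
      exact (hx 0).2.trans_lt h6
    refine ⟨⟨hux, hxv⟩, eventually_atTop.2 ⟨J, fun j hj => ?_⟩⟩
    obtain ⟨i, rfl⟩ := Nat.exists_eq_add_of_le hj
    obtain ⟨P, hP1, h1, h2, h3, h4, h5, h6, -⟩ := hI i
    obtain ⟨-, -, t5, -⟩ := hJ (J + i) (by omega)
    have hW0 : 0 < W (J + i) := by linarith
    have hlt : x < (I i).2.1 := (hx (i + 1)).2.trans_lt (hnest i).2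
    have hge : (I i).1 ≤ x := (hx i).1
    have hpos : 0 < (I i).1 := hu0.trans h4
    have w1 : (P : ℝ) ≤ W (J + i) * x ^ n (J + i) := by
      rw [← h1]
      exact mul_le_mul_of_nonneg_left (pow_le_pow_left₀ hpos.le hge _) hW0.le
    have w2 : W (J + i) * x ^ n (J + i) < (P : ℝ) + 1 := by
      rw [← h2]
      have hx0 : 0 < x := hu0.trans hux
      have hne : n (J + i) ≠ 0 := by
        have := hn1 (J + i) (by omega)
        omega
      exact mul_lt_mul_of_pos_left (pow_lt_pow_left₀ hlt hx0.le hne) hW0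
    rw [Int.floor_eq_iff.2 ⟨w1, w2⟩]
    exact h3

theorem dim_eq (n : ℕ → ℕ) (hn : StrictMono n)
    (hrat : Tendsto (fun j => (n (j + 1) : ℝ) / n j) atTop atTop)
    (hlog : Tendsto (fun j => Real.log (n (j + 1)) / n j) atTop (𝓝 0)) (W : ℕ → ℝ) {L : ℝ}
    (hL1 : 1 ≤ L) (hW : ∀ᶠ j in atTop, 1 ≤ W j ∧ W j ≤ L ^ n j) (k : ℤ)
    {u v : ℝ} (hu : 1 ≤ u) (huv : u < v) : dimH (PW n W k u v) = 1 := by
  apply le_antisymm
  · exact (dimH_mono (Set.subset_univ _)).trans Real.dimH_univ.le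
  · by_contra hcon
    push Not at hcon
    have hne : dimH (PW n W k u v) ≠ ⊤ := (hcon.trans ENNReal.one_lt_top).ne
    obtain ⟨t, htd⟩ : ∃ t : ℝ, t = (dimH (PW n W k u v)).toReal := ⟨_, rfl⟩
    have ht0 : 0 ≤ t := by rw [htd]; exact ENNReal.toReal_nonneg
    have ht1 : t < 1 := by
      rw [htd]
      have := (ENNReal.toReal_lt_toReal hne ENNReal.one_ne_top).2 hcon
      rwa [ENNReal.toReal_one] at this
    have h := dim_ge n hn hrat hlog W hL1 hW k (u := (u + v) / 2) (v := v) (by linarith)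
      (by linarith) (s := (t + 1) / 2) (by linarith) (by linarith)
    have hsub : PW n W k ((u + v) / 2) v ⊆ PW n W k u v := by
      rintro α ⟨⟨h1, h2⟩, h3⟩
      exact ⟨⟨by linarith, h2⟩, h3⟩
    have h' := h.trans (dimH_mono hsub)
    rw [← ENNReal.ofReal_toReal hne, ← htd, ENNReal.ofReal_le_ofReal_iff ht0] at h'
    linarith

end Pool.Agent.Helper99.WD
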